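import Pool.Agent.W601.SQ.Stm

set_option autoImplicit false
open scoped Classical Cardinal
open Filter Topology MeasureTheory

namespace Pool.Agent.W991.SQ

open Pool.Agent.W601.SQ

theorem ch_mul {ι : Type} (s : ι →₀ ℤ) (x y : ι → Circle) : ch s (x * y) = ch s x * ch s y := by
  unfold ch
  rw [← Finsupp.prod_mul]
  refine Finset.prod_congr rfl fun i _ => ?_
  exact mul_zpow _ _ _

theorem avg : S_AVG := by
  intro ι L hL
  haveI hcs : CompactSpace ↥L := isCompact_iff_compactSpace.1 hL.isCompact
  letI hm : MeasurableSpace ↥L := borel ↥L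
  haveI hb : BorelSpace ↥L := ⟨rfl⟩
  let μ : Measure ↥L := Measure.haarMeasure ⊤
  have h1 : μ Set.univ = 1 := by
    have h := Measure.haarMeasure_self (G := ↥L) (K₀ := ⊤)
    simpa using h
  haveI hp : IsProbabilityMeasure μ := ⟨h1⟩
  have hint : ∀ f : C(ι → Circle, ℂ), Integrable (fun l : ↥L => f l) μ := by
    intro f
    have hc : Continuous (fun l : ↥L => f l) := f.continuous.comp continuous_subtype_val
    exact hc.integrable_of_hasCompactSupport (HasCompactSupport.of_compactSpace _)
  let A : C(ι → Circle, ℂ) →ₗ[ℂ] ℂ :=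
    { toFun := fun f => ∫ l : ↥L, f l ∂μ
      map_add' := fun f g => by
        have := integral_add (hint f) (hint g)
        simpa using this
      map_smul' := fun c f => by
        have := integral_const_mul (μ := μ) c (fun l : ↥L => f l)
        simpa using this }
  have hA : ∀ f, A f = ∫ l : ↥L, f l ∂μ := fun f => rfl
  refine ⟨A, ?_, ?_, ?_⟩
  · intro f ε hf
    rw [hA]
    have := norm_integral_le_of_norm_le_const (μ := μ) (f := fun l : ↥L => f l) (C := ε)
      (Filter.Eventually.of_forall fun l => hf l l.2)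
    simpa using this
  · intro f c hf
    rw [hA]
    have : (fun l : ↥L => f l) = fun _ => c := funext fun l => hf l l.2
    rw [this, integral_const]
    simp
  · rintro f k c hf ⟨l0, hl0, hne⟩
    rw [hA]
    have h2 := integral_mul_left_eq_self (μ := μ) (fun l : ↥L => f l) ⟨l0, hl0⟩
    have h3 : (fun l : ↥L => f ((⟨l0, hl0⟩ * l : ↥L) : ι → Circle)) =
        fun l : ↥L => ((ch k l0 : Circle) : ℂ) * f l := by
      funext l
      have e1 : (((⟨l0, hl0⟩ : ↥L) * l : ↥L) : ι → Circle) = l0 * (l : ι → Circle) := rfl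
      rw [hf _ ((⟨l0, hl0⟩ : ↥L) * l).2, hf _ l.2, e1, ch_mul]
      push_cast
      ring
    have h4 : ∫ l : ↥L, f ((⟨l0, hl0⟩ * l : ↥L) : ι → Circle) ∂μ =
        ((ch k l0 : Circle) : ℂ) * ∫ l : ↥L, f l ∂μ := by
      rw [h3, integral_const_mul]
    have h5 : (((ch k l0 : Circle) : ℂ) - 1) * ∫ l : ↥L, f l ∂μ = 0 := by
      rw [sub_mul, one_mul, ← h4, sub_eq_zero]
      exact h2
    rcases mul_eq_zero.1 h5 with h6 | h6
    · exfalso
      apply hne
      have : ((ch k l0 : Circle) : ℂ) = ((1 : Circle) : ℂ) := by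
        rw [Circle.coe_one]
        exact sub_eq_zero.1 h6
      exact Circle.coe_injective this
    · exact h6

end Pool.Agent.W991.SQ
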